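import Pool.Agent.Helper35.GR.LCalc2
import Pool.Agent.Helper35.GR.LCut

/-!
# P7 : interior gradient estimate for graphical mean curvature flow (MP_114a94_gt)
-/

set_option autoImplicit false

open scoped ContDiff Topology NNReal
open Set Filter MeasureTheory

namespace Pool.Agent.GR

open Pool.Agent.Helper25.GrimReaper

variable {n : ℕ}

/-- the cut-off profile `ψ(r) = (max (e^{Kr}-1) 0)²`. -/
noncomputable def P7_psi (K r : ℝ) : ℝ := (max (Real.exp (K * r) - 1) 0) ^ 2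

lemma P7_psi_eventuallyEq {K r : ℝ} (hK : 0 < K) (hr : 0 < r) :
    P7_psi K =ᶠ[𝓝 r] fun s => (Real.exp (K * s) - 1) ^ 2 := by
  filter_upwards [lt_mem_nhds hr] with s hs
  unfold P7_psi
  rw [max_eq_left]
  have : (1 : ℝ) ≤ Real.exp (K * s) := Real.one_le_exp (by positivity)
  linarith

lemma P7_psi_hasDeriv_aux (K s : ℝ) : HasDerivAt (fun s => (Real.exp (K * s) - 1) ^ 2)
    (2 * (Real.exp (K * s) - 1) * (K * Real.exp (K * s))) s := by
  have h1 : HasDerivAt (fun s : ℝ => K * s) K s := by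
    simpa using (hasDerivAt_id s).const_mul K
  have h2 := (h1.exp.sub_const 1).pow 2
  refine h2.congr_deriv ?_
  push_cast
  ring

lemma P7_psi_hasDeriv_aux2 (K s : ℝ) : HasDerivAt
    (fun s => 2 * (Real.exp (K * s) - 1) * (K * Real.exp (K * s)))
    (2 * (K * Real.exp (K * s)) ^ 2 + 2 * (Real.exp (K * s) - 1) * (K ^ 2 * Real.exp (K * s)))
    s := by
  have h1 : HasDerivAt (fun s : ℝ => K * s) K s := by
    simpa using (hasDerivAt_id s).const_mul K
  have h2 := ((h1.exp.sub_const 1).const_mul 2).mul (h1.exp.const_mul K)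
  refine h2.congr_deriv ?_
  ring

lemma P7_psi_deriv {K r : ℝ} (hK : 0 < K) (hr : 0 < r) :
    deriv (P7_psi K) r = 2 * (Real.exp (K * r) - 1) * (K * Real.exp (K * r)) := by
  rw [(P7_psi_eventuallyEq hK hr).deriv_eq]
  exact (P7_psi_hasDeriv_aux K r).deriv

lemma P7_psi_deriv2 {K r : ℝ} (hK : 0 < K) (hr : 0 < r) :
    deriv (deriv (P7_psi K)) r = 2 * (K * Real.exp (K * r)) ^ 2
      + 2 * (Real.exp (K * r) - 1) * (K ^ 2 * Real.exp (K * r)) := by
  have h1 : deriv (P7_psi K) =ᶠ[𝓝 r]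
      fun s => 2 * (Real.exp (K * s) - 1) * (K * Real.exp (K * s)) := by
    filter_upwards [lt_mem_nhds hr] with s hs using P7_psi_deriv hK hs
  rw [h1.deriv_eq]
  exact (P7_psi_hasDeriv_aux2 K r).deriv

lemma P7_psi_contDiffAt {K r : ℝ} (hK : 0 < K) (hr : 0 < r) :
    ContDiffAt ℝ 2 (P7_psi K) r := by
  refine ContDiffAt.congr_of_eventuallyEq ?_ (P7_psi_eventuallyEq hK hr)
  fun_prop

lemma P7_gip_smul (p d e : E n) (a b : ℝ) : gip p (a • d) (b • e) = a * b * gip p d e := by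
  unfold gip
  simp only [inner_smul_left, inner_smul_right, RCLike.conj_to_real]
  ring

lemma P7_gip_add_self (p a : E n) (b : ℝ) :
    gip p (a + b • p) (a + b • p) = gip p a a + 2 * b * gip p p a + b ^ 2 * gip p p p := by
  unfold gip
  simp only [inner_add_left, inner_add_right, inner_smul_left, inner_smul_right,
    RCLike.conj_to_real, real_inner_comm a p]
  ring

lemma P7_gip_nonneg (p d : E n) : 0 ≤ gip p d d :=
  le_trans (by positivity) (le_gip_self p d)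

/-- The algebraic heart of the estimate. -/
lemma P7_algebra {p q d : E n} {K w W η η₁ Lφ lW S : ℝ}
    (hW : W = 1 + ‖p‖ ^ 2) (hw : w = (1 + ‖p‖ ^ 2)⁻¹) (hη : 0 < η) (hη₁ : 0 < η₁)
    (hq : q = -((W * η₁ / η) • d))
    (hl : lW = -4 * w * gip p q q - 2 * S) (hS : gip p q q ≤ ‖p‖ ^ 2 * S) (hS0 : 0 ≤ S)
    (htot : 0 ≤ η ^ 2 * lW + W * (2 * η * η₁ * Lφ - (2 * η₁ ^ 2 + 2 * η * (K * η₁)) * gip p d d)
      - 2 * gip p ((2 * η * η₁) • d) ((2 : ℝ) • q)) :
    K * gip p d d ≤ Lφ := by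
  have hWpos : 0 < W := by rw [hW]; positivity
  have hwW : w * W = 1 := by rw [hw, ← hW]; exact inv_mul_cancel₀ hWpos.ne'
  have hwpos : 0 < w := by rw [hw]; positivity
  have hq' : q = (-(W * η₁ / η)) • d := by rw [hq, neg_smul]
  have hqq : gip p q q = (W * η₁ / η) ^ 2 * gip p d d := by
    rw [hq', P7_gip_smul]; ring
  have hdq : gip p ((2 * η * η₁) • d) ((2 : ℝ) • q) = -4 * (W * η₁ ^ 2) * gip p d d := by
    rw [hq', smul_smul, P7_gip_smul]
    field_simp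
    ring
  set G := gip p d d with hG
  have hS1 : w * gip p q q ≤ S := by
    have h1 : gip p q q ≤ W * S := hS.trans (by rw [hW]; nlinarith)
    calc w * gip p q q ≤ w * (W * S) := mul_le_mul_of_nonneg_left h1 hwpos.le
      _ = S := by rw [← mul_assoc, hwW, one_mul]
  have hlW : lW ≤ -6 * (w * gip p q q) := by rw [hl]; linarith
  have hqq2 : η ^ 2 * (w * gip p q q) = W * η₁ ^ 2 * G := by
    rw [hqq]
    have : η ^ 2 * (w * ((W * η₁ / η) ^ 2 * G)) = (w * W) * (W * η₁ ^ 2 * G) := by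
      field_simp
    rw [this, hwW, one_mul]
  have h2 : η ^ 2 * lW ≤ -6 * (W * η₁ ^ 2 * G) := by
    calc η ^ 2 * lW ≤ η ^ 2 * (-6 * (w * gip p q q)) :=
          mul_le_mul_of_nonneg_left hlW (by positivity)
      _ = -6 * (η ^ 2 * (w * gip p q q)) := by ring
      _ = _ := by rw [hqq2]
  rw [hdq] at htot
  have h3 : 0 ≤ 2 * (W * η * η₁) * (Lφ - K * G) := by nlinarith
  have h4 : 0 ≤ Lφ - K * G := by
    by_contra hcon
    push Not at hcon
    have : 0 < 2 * (W * η * η₁) := by positivity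
    nlinarith
  linarith

/-- Lower bound for `g(∇φ,∇φ)` when the gradient is large. -/
lemma P7_lower {p a : E n} {M₁ R : ℝ} (hM : 1 ≤ M₁) (hR : 0 < R) (ha : ‖a‖ ≤ 2 / R)
    (hW : (max 2 (64 * M₁ / R)) ^ 2 < 1 + ‖p‖ ^ 2) :
    1 / (32 * M₁ ^ 2) ≤ gip p (a + (1 / (4 * M₁)) • p) (a + (1 / (4 * M₁)) • p) := by
  have hM0 : 0 < M₁ := by linarith
  set V : ℝ := Real.sqrt (1 + ‖p‖ ^ 2) with hV
  have hV2 : V ^ 2 = 1 + ‖p‖ ^ 2 := Real.sq_sqrt (by positivity)
  have hV0 : 0 < V := Real.sqrt_pos.2 (by positivity)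
  have hmax0 : (0 : ℝ) ≤ max 2 (64 * M₁ / R) := le_trans (by norm_num) (le_max_left _ _)
  have hVW : max 2 (64 * M₁ / R) < V := by
    refine lt_of_pow_lt_pow_left₀ 2 hV0.le ?_
    rw [hV2]; exact hW
  have hV4 : 2 < V := lt_of_le_of_lt (le_max_left _ _) hVW
  have hVM : 64 * M₁ / R < V := lt_of_le_of_lt (le_max_right _ _) hVW
  rw [P7_gip_add_self]
  have h1 : gip p p p = 1 - (V ^ 2)⁻¹ := by
    rw [gip_p_left, real_inner_self_eq_norm_sq, ← hV2]
    have : ‖p‖ ^ 2 = V ^ 2 - 1 := by rw [hV2]; ring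
    rw [this]
    field_simp
  have h2 : -(2 / (R * V)) ≤ gip p p a := by
    rw [gip_p_left, ← hV2]
    have h3 : -(‖p‖ * ‖a‖) ≤ inner ℝ p a := by
      have := abs_real_inner_le_norm p a
      exact (abs_le.1 this).1
    have hpV : ‖p‖ ≤ V := by
      refine le_of_sq_le_sq ?_ hV0.le
      rw [hV2]; linarith
    have h4 : ‖p‖ * ‖a‖ ≤ V * (2 / R) :=
      mul_le_mul hpV ha (norm_nonneg _) hV0.le
    have h5 : -(V * (2 / R)) ≤ inner ℝ p a := by linarith
    calc -(2 / (R * V)) = (V ^ 2)⁻¹ * (-(V * (2 / R))) := by field_simp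
      _ ≤ (V ^ 2)⁻¹ * inner ℝ p a := mul_le_mul_of_nonneg_left h5 (by positivity)
  have h6 := P7_gip_nonneg p a
  have h7 : (V ^ 2)⁻¹ ≤ 1 / 4 := by
    rw [inv_eq_one_div]
    exact one_div_le_one_div_of_le (by norm_num) (by nlinarith)
  have h8 : 2 / (R * V) ≤ 1 / (32 * M₁) := by
    rw [div_le_div_iff₀ (by positivity) (by positivity)]
    rw [div_lt_iff₀ hR] at hVM
    nlinarith
  have h9 : 2 * (1 / (4 * M₁)) * gip p p a ≥ -(1 / (64 * M₁ ^ 2)) := by
    have : gip p p a ≥ -(1 / (32 * M₁)) := by linarith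
    calc 2 * (1 / (4 * M₁)) * gip p p a ≥ 2 * (1 / (4 * M₁)) * (-(1 / (32 * M₁))) :=
          mul_le_mul_of_nonneg_left this (by positivity)
      _ = -(1 / (64 * M₁ ^ 2)) := by field_simp; ring
  have h10 : (1 / (4 * M₁)) ^ 2 * gip p p p ≥ 3 / (64 * M₁ ^ 2) := by
    rw [h1]
    calc (1 / (4 * M₁)) ^ 2 * (1 - (V ^ 2)⁻¹) ≥ (1 / (4 * M₁)) ^ 2 * (3 / 4) :=
          mul_le_mul_of_nonneg_left (by linarith) (by positivity)
      _ = _ := by field_simp; ring
  have h11 : 1 / (32 * M₁ ^ 2) = 3 / (64 * M₁ ^ 2) - 1 / (64 * M₁ ^ 2) := by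
    field_simp; ring
  linarith

theorem grad_est (n : ℕ) {R : ℝ} (hR : 0 < R) (M L : ℝ) : ∃ C : ℝ,
    ∀ (T : ℝ) (u : ℝ → E n → ℝ) (x₀ : E n), IsSolOn (Icc 0 T) univ u →
      (∀ t ∈ Icc 0 T, ∀ x ∈ Metric.closedBall x₀ R, |u t x| ≤ M) →
      (∀ x ∈ Metric.closedBall x₀ R, gradSq (u 0) x ≤ L) →
      ∀ t ∈ Icc 0 T, gradSq (u t) x₀ ≤ C := by
  set M₁ : ℝ := max M 1 with hM₁def
  have hM₁ : 1 ≤ M₁ := le_max_right _ _
  have hM₁0 : 0 < M₁ := by linarith
  set K : ℝ := 64 * n * M₁ ^ 2 / R ^ 2 + 1 with hKdef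
  have hK : 0 < K := by positivity
  set W₀ : ℝ := max 2 (64 * M₁ / R) with hW₀
  set B : ℝ := (Real.exp K - 1) ^ 2 * max (W₀ ^ 2) (1 + L) with hB
  refine ⟨B / (Real.exp (K / 2) - 1) ^ 2, ?_⟩
  intro T u x₀ hu hM hL t ht
  -- the functions
  set φ : ℝ → E n → ℝ := fun s y => (1 - (1 / R ^ 2) * ‖y - x₀‖ ^ 2)
      + (1 / (4 * M₁)) * (u s y - M₁) with hφ
  have hφ1 : ∀ s ∈ Icc 0 T, ∀ y ∈ Metric.closedBall x₀ R, φ s y ≤ 1 - (1 / R ^ 2) * ‖y - x₀‖ ^ 2 := by
    intro s hs y hy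
    have h1 := (abs_le.1 (hM s hs y hy)).2
    have h2 : u s y - M₁ ≤ 0 := by linarith [le_max_left M 1]
    have : (1 / (4 * M₁)) * (u s y - M₁) ≤ 0 :=
      mul_nonpos_of_nonneg_of_nonpos (by positivity) h2
    simp only [hφ]; linarith
  have hφ2 : ∀ s ∈ Icc 0 T, 1 / 2 ≤ φ s x₀ := by
    intro s hs
    have h1 := (abs_le.1 (hM s hs x₀ (Metric.mem_closedBall_self hR.le))).1
    have h2 : -(2 * M₁) ≤ u s x₀ - M₁ := by linarith [le_max_left M 1]
    have : -(1 / 2) ≤ (1 / (4 * M₁)) * (u s x₀ - M₁) := by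
      calc -(1 / 2) = (1 / (4 * M₁)) * (-(2 * M₁)) := by field_simp; ring
        _ ≤ _ := mul_le_mul_of_nonneg_left h2 (by positivity)
    simp only [hφ, sub_self, norm_zero]
    linarith
  set Q : ℝ → E n → ℝ := fun s y => P7_psi K (φ s y) * (1 + gradSq (u s) y) with hQ
  -- key claim
  have hpsi0 : ∀ r, 0 ≤ P7_psi K r := fun r => by unfold P7_psi; positivity
  have hexpK : 1 < Real.exp K := Real.one_lt_exp_iff.2 hK
  have hpsi1 : ∀ r, r ≤ 1 → P7_psi K r ≤ (Real.exp K - 1) ^ 2 := by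
    intro r hr
    unfold P7_psi
    apply pow_le_pow_left₀ (le_max_right _ _)
    apply max_le
    · have : Real.exp (K * r) ≤ Real.exp K := Real.exp_le_exp.2 (by nlinarith)
      linarith
    · linarith
  have hpsineg : ∀ r, r ≤ 0 → P7_psi K r = 0 := by
    intro r hr
    unfold P7_psi
    have : Real.exp (K * r) ≤ 1 := Real.exp_le_one_iff.2 (by nlinarith)
    rw [max_eq_right (by linarith)]
    simp
  have hB0 : 0 ≤ B := by
    rw [hB]
    apply mul_nonneg (by positivity)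
    exact le_trans (by positivity) (le_max_left _ _)
  have key : ∀ s ∈ Icc 0 T, ∀ y ∈ Metric.closedBall x₀ R, Q s y ≤ B := by
    have hcompact : IsCompact (Icc 0 T ×ˢ Metric.closedBall x₀ R) :=
      isCompact_Icc.prod (isCompact_closedBall x₀ R)
    have hcu : ContinuousOn (fun p : ℝ × E n => u p.1 p.2)
        (Icc 0 T ×ˢ Metric.closedBall x₀ R) :=
      (hu.cont []).mono (prod_mono le_rfl (subset_univ _))
    have hcg : ContinuousOn (fun p : ℝ × E n => gradSq (u p.1) p.2)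
        (Icc 0 T ×ˢ Metric.closedBall x₀ R) := by
      unfold gradSq
      refine continuousOn_finsetSum _ fun i _ => ?_
      exact ((hu.cont [i]).mono (prod_mono le_rfl (subset_univ _))).pow 2
    have hcψ : Continuous (P7_psi K) := by unfold P7_psi; fun_prop
    have hcφ : ContinuousOn (fun p : ℝ × E n => φ p.1 p.2)
        (Icc 0 T ×ˢ Metric.closedBall x₀ R) := by
      simp only [hφ]
      refine ContinuousOn.add ?_ ((hcu.sub continuousOn_const).const_mul _)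
      fun_prop
    have hcQ : ContinuousOn (fun p : ℝ × E n => Q p.1 p.2)
        (Icc 0 T ×ˢ Metric.closedBall x₀ R) := by
      simp only [hQ]
      exact (hcψ.comp_continuousOn hcφ).mul (continuousOn_const.add hcg)
    obtain ⟨⟨s₁, y₁⟩, hmem, hmax⟩ := hcompact.exists_isMaxOn
      ⟨(t, x₀), ht, Metric.mem_closedBall_self hR.le⟩ hcQ
    have hs₁ : s₁ ∈ Icc 0 T := hmem.1
    have hy₁ : y₁ ∈ Metric.closedBall x₀ R := hmem.2
    have hmax' : ∀ s ∈ Icc 0 T, ∀ y ∈ Metric.closedBall x₀ R, Q s y ≤ Q s₁ y₁ :=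
      fun s hs y hy => isMaxOn_iff.1 hmax (s, y) (Set.mk_mem_prod hs hy)
    suffices hQ1 : Q s₁ y₁ ≤ B from fun s hs y hy => le_trans (hmax' s hs y hy) hQ1
    by_contra hcon
    push Not at hcon
    have hφ₁ : φ s₁ y₁ ≤ 1 := (hφ1 s₁ hs₁ y₁ hy₁).trans (by
      have : 0 ≤ (1 / R ^ 2) * ‖y₁ - x₀‖ ^ 2 := by positivity
      linarith)
    have hψ₁ := hpsi1 _ hφ₁
    have hg0 := gradSq_nonneg (u s₁) y₁
    -- `t > 0`
    have hs₁pos : 0 < s₁ := by
      rcases hs₁.1.lt_or_eq with h | h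
      · exact h
      · exfalso
        have h1 := hL y₁ hy₁
        rw [h] at h1
        have : Q s₁ y₁ ≤ B := by
          simp only [hQ, hB]
          exact mul_le_mul hψ₁ ((by linarith : 1 + gradSq (u s₁) y₁ ≤ 1 + L).trans
            (le_max_right _ _)) (by linarith) (by positivity)
        linarith
    have hφpos : 0 < φ s₁ y₁ := by
      by_contra h
      push Not at h
      have : Q s₁ y₁ = 0 := by simp only [hQ, hpsineg _ h, zero_mul]
      linarith
    have hyball : y₁ ∈ Metric.ball x₀ R := by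
      have h1 := hφ1 s₁ hs₁ y₁ hy₁
      have h2 : (1 / R ^ 2) * ‖y₁ - x₀‖ ^ 2 < 1 := by linarith
      have h3 : ‖y₁ - x₀‖ ^ 2 < R ^ 2 := by
        have : (1 / R ^ 2) * ‖y₁ - x₀‖ ^ 2 = ‖y₁ - x₀‖ ^ 2 / R ^ 2 := by ring
        rw [this, div_lt_one (by positivity)] at h2
        exact h2
      rw [Metric.mem_ball, dist_eq_norm]
      exact lt_of_pow_lt_pow_left₀ 2 hR.le h3
    have hWbig : W₀ ^ 2 < 1 + gradSq (u s₁) y₁ := by
      by_contra h
      push Not at h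
      have : Q s₁ y₁ ≤ B := by
        simp only [hQ, hB]
        exact mul_le_mul hψ₁ (h.trans (le_max_left _ _)) (by linarith) (by positivity)
      linarith
    -- the jets
    set p : E n := gradient (u s₁) y₁ with hp
    have hpg : ‖p‖ ^ 2 = gradSq (u s₁) y₁ := norm_gradient_sq _ _
    set q : E n := Hv (u s₁) y₁ p with hq
    set S : ℝ := ∑ k, gip p (Hv (u s₁) y₁ (ee k)) (Hv (u s₁) y₁ (ee k)) with hS
    have hone : LJet p (Icc 0 T) s₁ y₁ (fun _ _ => (1 : ℝ)) 0 0 :=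
      LJet.time (hasDerivWithinAt_const _ _ _)
    have hMc : LJet p (Icc 0 T) s₁ y₁ (fun _ _ => M₁) 0 0 :=
      LJet.time (hasDerivWithinAt_const _ _ _)
    have hLu : LJet p (Icc 0 T) s₁ y₁ u p 0 := LJet_u hu hs₁
    set a : E n := -((1 / R ^ 2) • ((2 : ℝ) • (y₁ - x₀))) with ha
    set d : E n := a + (1 / (4 * M₁)) • p with hd
    set lφ : ℝ := (2 / R ^ 2) * (n - (1 + ‖p‖ ^ 2)⁻¹ * ‖p‖ ^ 2) with hlφ
    have hLφ : LJet p (Icc 0 T) s₁ y₁ φ d lφ := by
      have h := ((hone.sub ((LJet.sqdist (p := p) (I := Icc 0 T) (t := s₁) (x := y₁)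
        x₀).const_mul (1 / R ^ 2))).add ((hLu.sub hMc).const_mul (1 / (4 * M₁))))
      refine h.congr ?_ ?_
      · rw [hd, ha]; simp
      · rw [hlφ]; ring
    have hLψ := hLφ.comp (P7_psi_contDiffAt hK hφpos)
    have hLW := hone.add (LJet_gradSq hu hs₁ (x := y₁))
    have hLQ := hLψ.mul hLW
    have hlocal : IsLocalMax (Q s₁) y₁ := by
      have : Metric.closedBall x₀ R ∈ 𝓝 y₁ :=
        Filter.mem_of_superset (Metric.isOpen_ball.mem_nhds hyball) Metric.ball_subset_closedBall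
      filter_upwards [this] with y hy
      exact hmax' s₁ hs₁ y hy
    have htime : ∀ s ∈ Icc 0 s₁, Q s y₁ ≤ Q s₁ y₁ := fun s hs =>
      hmax' s ⟨hs.1, hs.2.trans hs₁.2⟩ y₁ hy₁
    obtain ⟨hgrad0, htot⟩ := LJet.max ⟨hs₁pos, hs₁.2⟩ hLQ hlocal htime
    rw [P7_psi_deriv hK hφpos] at hgrad0
    rw [P7_psi_deriv hK hφpos, P7_psi_deriv2 hK hφpos] at htot
    set η : ℝ := Real.exp (K * φ s₁ y₁) - 1 with hη
    set η₁ : ℝ := K * Real.exp (K * φ s₁ y₁) with hη₁
    have hηpos : 0 < η := by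
      have : 1 < Real.exp (K * φ s₁ y₁) := Real.one_lt_exp_iff.2 (by positivity)
      linarith
    have hη₁pos : 0 < η₁ := by positivity
    have hψeq : P7_psi K (φ s₁ y₁) = η ^ 2 := by
      unfold P7_psi; rw [max_eq_left hηpos.le]
    rw [hψeq] at hgrad0 htot
    have hqd : q = -(((1 + gradSq (u s₁) y₁) * η₁ / η) • d) := by
      have h1 : (2 * η ^ 2) • q = -((2 * ((1 + gradSq (u s₁) y₁) * η * η₁)) • d) := by
        have h2 : (2 * η ^ 2) • q + (2 * ((1 + gradSq (u s₁) y₁) * η * η₁)) • d = 0 := by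
          rw [← hgrad0, zero_add, smul_smul, smul_smul]
          congr 2 <;> ring
        exact eq_neg_of_add_eq_zero_left h2
      have h3 : (2 * η ^ 2)⁻¹ • ((2 * η ^ 2) • q) = q := by
        rw [smul_smul, inv_mul_cancel₀ (by positivity), one_smul]
      rw [← h3, h1, smul_neg, smul_smul]
      congr 2
      field_simp
    have hfin : K * gip p d d ≤ lφ := by
      refine P7_algebra (p := p) (q := q) (d := d) (K := K) (w := (1 + ‖p‖ ^ 2)⁻¹)
        (W := 1 + gradSq (u s₁) y₁) (η := η) (η₁ := η₁) (Lφ := lφ) (S := S)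
        (lW := -4 * (1 + ‖p‖ ^ 2)⁻¹ * gip p q q - 2 * S)
        (by rw [hpg]) rfl hηpos hη₁pos hqd rfl ?_ ?_ ?_
      · exact gip_Hv_le _ _ p p
      · exact Finset.sum_nonneg fun k _ => P7_gip_nonneg _ _
      · refine htot.trans_eq ?_
        rw [hpg, zero_add, zero_add]
        ring
    have hlow : 1 / (32 * M₁ ^ 2) ≤ gip p d d := by
      refine P7_lower hM₁ hR ?_ (by rw [hpg]; exact hWbig)
      rw [ha, norm_neg, norm_smul, norm_smul]
      have h1 : ‖y₁ - x₀‖ ≤ R := by rw [← dist_eq_norm]; exact hy₁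
      rw [Real.norm_of_nonneg (by positivity : (0 : ℝ) ≤ 1 / R ^ 2),
        Real.norm_of_nonneg (by norm_num : (0 : ℝ) ≤ 2)]
      calc 1 / R ^ 2 * (2 * ‖y₁ - x₀‖) ≤ 1 / R ^ 2 * (2 * R) := by gcongr
        _ = 2 / R := by field_simp
    have hlφ' : lφ ≤ 2 / R ^ 2 * n := by
      rw [hlφ]
      apply mul_le_mul_of_nonneg_left _ (by positivity)
      have : 0 ≤ (1 + ‖p‖ ^ 2)⁻¹ * ‖p‖ ^ 2 := by positivity
      linarith
    have h1 : K * (1 / (32 * M₁ ^ 2)) ≤ 2 / R ^ 2 * n :=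
      ((mul_le_mul_of_nonneg_left hlow hK.le).trans hfin).trans hlφ'
    have h2 : K * (1 / (32 * M₁ ^ 2)) = 2 / R ^ 2 * n + 1 / (32 * M₁ ^ 2) := by
      rw [hKdef]; field_simp; ring
    have h3 : 0 < 1 / (32 * M₁ ^ 2) := by positivity
    linarith
  have h1 := key t ht x₀ (Metric.mem_closedBall_self hR.le)
  have h2 : (Real.exp (K / 2) - 1) ^ 2 ≤ P7_psi K (φ t x₀) := by
    have h3 : Real.exp (K / 2) ≤ Real.exp (K * φ t x₀) := by
      apply Real.exp_le_exp.2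
      have := hφ2 t ht
      nlinarith
    have h4 : 1 < Real.exp (K / 2) := Real.one_lt_exp_iff.2 (by positivity)
    unfold P7_psi
    apply pow_le_pow_left₀ (by linarith)
    exact le_trans (by linarith) (le_max_left _ _)
  have h4 : 1 < Real.exp (K / 2) := Real.one_lt_exp_iff.2 (by positivity)
  have h5 : 0 < (Real.exp (K / 2) - 1) ^ 2 := by
    have : 0 < Real.exp (K / 2) - 1 := by linarith
    positivity
  rw [le_div_iff₀ h5]
  have h6 := gradSq_nonneg (u t) x₀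
  calc gradSq (u t) x₀ * (Real.exp (K / 2) - 1) ^ 2
      ≤ gradSq (u t) x₀ * P7_psi K (φ t x₀) := mul_le_mul_of_nonneg_left h2 h6
    _ ≤ Q t x₀ := by
        simp only [hQ]
        have : 0 ≤ P7_psi K (φ t x₀) := by unfold P7_psi; positivity
        nlinarith
    _ ≤ B := h1

end Pool.Agent.GR
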