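import Pool.Agent.Helper16.GR.Moll
import Pool.Agent.Helper40.GR.MollAdj
import Pool.Agent.Helper40.GR.PeriodInt
import Pool.Agent.Helper64.GR.Sobolev
import Pool.Agent.Helper75.GR.Energy

/-!
# P5c : uniform bounds for the approximate solutions (MP_114a94_gt)
-/

set_option autoImplicit false

open scoped ContDiff Topology NNReal
open Set Filter MeasureTheory

namespace Pool.Agent.GR

open Pool.Agent.Helper25.GrimReaper

variable {n : ℕ}

lemma P5c_contDiff_Fop {v : E n → ℝ} (hv : ContDiff ℝ ∞ v) : ContDiff ℝ ∞ (Fop v) := by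
  have h1 : ∀ i, ContDiff ℝ ∞ (pd i v) := fun i => contDiff_pd hv i
  have h2 : ∀ i j, ContDiff ℝ ∞ (pd i (pd j v)) := fun i j => contDiff_pd (h1 j) i
  unfold Fop gradSq
  refine (ContDiff.sum fun i _ => h2 i i).sub (ContDiff.mul (ContDiff.inv ?_ ?_) ?_)
  · exact contDiff_const.add (ContDiff.sum fun i _ => (h1 i).pow 2)
  · intro x
    have : 0 ≤ ∑ i, (pd i v x) ^ 2 := Finset.sum_nonneg fun _ _ => sq_nonneg _
    positivity
  · exact ContDiff.sum fun i _ => ContDiff.sum fun j _ => ((h1 i).mul (h1 j)).mul (h2 i j)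

lemma P5c_Sk_nonneg (k : ℕ) (f : E n → ℝ) (x : E n) : 0 ≤ Sk k f x :=
  Finset.sum_nonneg fun _ _ => sq_nonneg _

lemma P5c_Sk_cont {f : E n → ℝ} (hf : ContDiff ℝ ∞ f) (k : ℕ) : Continuous (Sk k f) := by
  unfold Sk
  exact continuous_finsetSum _ fun a _ => ((contDiff_Dw hf _).continuous).pow 2

lemma P5c_Iper_nonneg {P : ℝ} {f : E n → ℝ} (h : ∀ x, 0 ≤ f x) : 0 ≤ Iper P f :=
  integral_nonneg h

lemma P5c_En_mono {P : ℝ} {s s' : ℕ} (h : s ≤ s') (f : E n → ℝ) : En P s f ≤ En P s' f := by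
  unfold En
  refine Finset.sum_le_sum_of_subset_of_nonneg ?_ fun k _ _ => P5c_Iper_nonneg (P5c_Sk_nonneg k f)
  intro k hk
  simp only [Finset.mem_range] at hk ⊢
  omega

lemma P5c_En_nonneg (P : ℝ) (s : ℕ) (f : E n → ℝ) : 0 ≤ En P s f :=
  Finset.sum_nonneg fun k _ => P5c_Iper_nonneg (P5c_Sk_nonneg k f)

lemma P5c_Sk_Dw_le (k : ℕ) (w : List (Fin n)) (f : E n → ℝ) (x : E n) :
    Sk k (Dw w f) x ≤ Sk (k + w.length) f x := by
  unfold Sk
  have h1 : ∀ a : Fin k → Fin n, (Dw (List.ofFn a) (Dw w f) x) ^ 2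
      = (fun b : Fin (k + w.length) → Fin n => (Dw (List.ofFn b) f x) ^ 2)
        (Fin.append a w.get) := by
    intro a
    simp only
    rw [List.ofFn_fin_append, List.ofFn_get, Dw_append]
  rw [Finset.sum_congr rfl fun a _ => h1 a]
  have hinj : Function.Injective (fun a : Fin k → Fin n => Fin.append a w.get) := by
    intro a b hab
    funext i
    have := congrFun hab (Fin.castAdd _ i)
    simpa using this
  rw [← Finset.sum_image (f := fun b : Fin (k + w.length) → Fin n => (Dw (List.ofFn b) f x) ^ 2)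
    (g := fun a : Fin k → Fin n => Fin.append a w.get) (s := Finset.univ)
    (fun a _ b _ h => hinj h)]
  exact Finset.sum_le_sum_of_subset_of_nonneg (Finset.subset_univ _) fun _ _ _ => sq_nonneg _

/-- Sup bounds from the energy. -/
lemma P5c_sup {P : ℝ} (hP : 0 < P) (n : ℕ) : ∃ C : ℝ, 0 ≤ C ∧ ∀ v : E n → ℝ,
    ContDiff ℝ ∞ v → Per P v → ∀ (w : List (Fin n)) (x : E n),
      (Dw w v x) ^ 2 ≤ C * En P (n + w.length) v := by
  obtain ⟨C, hC0, hC⟩ := sobolev hP n
  refine ⟨C, hC0, fun v hv hvp w x => ?_⟩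
  refine (hC (Dw w v) (contDiff_Dw hv w) (hvp.Dw w) x).trans ?_
  refine mul_le_mul_of_nonneg_left ?_ hC0
  unfold En
  calc ∑ k ∈ Finset.range (n + 1), Iper P (Sk k (Dw w v))
      ≤ ∑ k ∈ Finset.range (n + 1), Iper P (Sk (k + w.length) v) := by
        refine Finset.sum_le_sum fun k _ => ?_
        exact Iper_mono (P5c_Sk_cont (contDiff_Dw hv w) k) (P5c_Sk_cont hv _)
          (P5c_Sk_Dw_le k w v)
    _ = ∑ j ∈ Finset.Ico w.length (n + 1 + w.length), Iper P (Sk j v) := by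
        rw [Finset.range_eq_Ico, Finset.sum_Ico_add' (fun j => Iper P (Sk j v)) 0 (n + 1) w.length,
          zero_add]
    _ ≤ ∑ j ∈ Finset.range (n + w.length + 1), Iper P (Sk j v) := by
        refine Finset.sum_le_sum_of_subset_of_nonneg ?_
          fun k _ _ => P5c_Iper_nonneg (P5c_Sk_nonneg k v)
        intro k hk
        simp only [Finset.mem_Ico, Finset.mem_range] at hk ⊢
        omega

/-- Energy of the mollification. -/
lemma P5c_En_J {ε : ℝ} (m : Mollifier n ε) {P : ℝ} (hP : 0 < P) {u : E n → ℝ}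
    (hu : ContDiff ℝ ∞ u) (hup : Per P u) (s : ℕ) : En P s (m.J u) ≤ En P s u := by
  unfold En
  refine Finset.sum_le_sum fun k _ => ?_
  have h1 : Iper P (Sk k (m.J u)) = ∑ a : Fin k → Fin n,
      Iper P (fun x => (m.J (Dw (List.ofFn a) u) x) ^ 2) := by
    unfold Sk
    rw [Iper_sum Finset.univ (fun (a : Fin k → Fin n) x => (Dw (List.ofFn a) (m.J u) x) ^ 2)]
    · refine Finset.sum_congr rfl fun a _ => ?_
      rw [J_Dw m hu]
    · intro a _
      exact ((contDiff_Dw (J_contDiff m hu.continuous) _).continuous).pow 2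
  have h2 : Iper P (Sk k u) = ∑ a : Fin k → Fin n,
      Iper P (fun x => (Dw (List.ofFn a) u x) ^ 2) := by
    unfold Sk
    rw [Iper_sum Finset.univ (fun (a : Fin k → Fin n) x => (Dw (List.ofFn a) u x) ^ 2)]
    intro a _
    exact ((contDiff_Dw hu _).continuous).pow 2
  rw [h1, h2]
  exact Finset.sum_le_sum fun a _ => J_contr m hP (contDiff_Dw hu _).continuous (hup.Dw _)

/-- Initial energy. -/
lemma P5c_En_init {P : ℝ} (hP : 0 < P) (n s : ℕ) (M : ℝ) : ∃ A : ℝ, 0 ≤ A ∧ ∀ f : E n → ℝ,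
    (∀ w : List (Fin n), w.length ≤ s → ∀ x, |Dw w f x| ≤ M) → En P s f ≤ A := by
  refine ⟨∑ k ∈ Finset.range (s + 1), P ^ n * (∑ _a : Fin k → Fin n, M ^ 2), ?_, ?_⟩
  · exact Finset.sum_nonneg fun k _ => mul_nonneg (by positivity)
      (Finset.sum_nonneg fun _ _ => sq_nonneg _)
  · intro f hf
    unfold En
    refine Finset.sum_le_sum fun k hk => ?_
    refine (le_abs_self _).trans (Iper_abs_le hP fun x => ?_)
    rw [abs_of_nonneg (P5c_Sk_nonneg k f x)]
    unfold Sk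
    refine Finset.sum_le_sum fun a _ => ?_
    have h1 := hf (List.ofFn a) (by simpa using Nat.lt_succ_iff.1 (Finset.mem_range.1 hk)) x
    rw [← sq_abs]
    exact pow_le_pow_left₀ (abs_nonneg _) h1 2

/-- Derivative of the energy. -/
lemma P5c_En_deriv {ε : ℝ} (m : Mollifier n ε) {P T : ℝ} (hP : 0 < P) {f : E n → ℝ}
    {U : ℝ → E n → ℝ} (hU : IsApprox m P T f U) (s : ℕ) : ∀ t ∈ Icc 0 T,
      HasDerivWithinAt (fun r => En P s (U r))
        (2 * ∑ k ∈ Finset.range (s + 1), ∑ a : Fin k → Fin n,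
          Iper P (fun x => Dw (List.ofFn a) (m.J (U t)) x
            * Dw (List.ofFn a) (Fop (m.J (U t))) x)) (Icc 0 T) t := by
  intro t ht
  unfold En
  rw [Finset.mul_sum]
  refine HasDerivWithinAt.fun_sum fun k _ => ?_
  have h1 := Iper_deriv (P := P) (T := T) (h := fun r x => Sk k (U r) x)
    (h' := fun r x => ∑ a : Fin k → Fin n,
      (2 * (Dw (List.ofFn a) (U r) x * Dw (List.ofFn a) (m.J (Fop (m.J (U r)))) x)))
    (by
      unfold Sk
      exact continuousOn_finsetSum _ fun a _ => (hU.cont _).pow 2)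
    (by
      exact continuousOn_finsetSum _ fun a _ => ((hU.cont _).mul (hU.contJ _)).const_mul 2)
    (by
      intro r hr x
      unfold Sk
      refine HasDerivWithinAt.fun_sum fun a _ => ?_
      refine ((hU.deriv (List.ofFn a) r hr x).pow 2).congr_deriv ?_
      push_cast
      ring) t ht
  refine h1.congr_deriv ?_
  have hu := hU.smooth t ht
  have hup := hU.per t ht
  have hv := J_contDiff m hu.continuous
  have hvp := J_per m hup
  have hF := P5c_contDiff_Fop hv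
  have hFp := hvp.Fop
  rw [Iper_sum Finset.univ (fun (a : Fin k → Fin n) x =>
    (2 * (Dw (List.ofFn a) (U t) x * Dw (List.ofFn a) (m.J (Fop (m.J (U t)))) x)))]
  · rw [Finset.mul_sum]
    refine Finset.sum_congr rfl fun a _ => ?_
    rw [Iper_const_mul, J_Dw m hF, J_adj m hP (contDiff_Dw hu _).continuous
      (contDiff_Dw hF _).continuous (hup.Dw _) (hFp.Dw _), ← J_Dw m hu]
  · intro a _
    exact (((contDiff_Dw hu _).continuous).mul
      ((contDiff_Dw (J_contDiff m hF.continuous) _).continuous)).const_mul 2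

/-- Gronwall / continuity argument. -/
lemma P5c_gron {T A K Bd : ℝ} (hK : 0 ≤ K) (hA : 0 ≤ A) {Ef D : ℝ → ℝ}
    (hE : ∀ t ∈ Icc 0 T, HasDerivWithinAt Ef (D t) (Icc 0 T) t) (h0 : Ef 0 ≤ A)
    (hBd : (1 + A) * Real.exp ((K + 1) * T) - 1 ≤ Bd)
    (hD : ∀ t ∈ Icc 0 T, Ef t ≤ Bd → D t ≤ K * (1 + Ef t)) : ∀ t ∈ Icc 0 T, Ef t ≤ Bd := by
  intro t ht
  have hB : ∀ x : ℝ, HasDerivAt (fun x => (1 + A) * Real.exp ((K + 1) * x) - 1)
      ((K + 1) * ((1 + A) * Real.exp ((K + 1) * x))) x := by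
    intro x
    have h1 : HasDerivAt (fun s : ℝ => (K + 1) * s) (K + 1) x := by
      simpa using (hasDerivAt_id x).const_mul (K + 1)
    refine ((h1.exp.const_mul (1 + A)).sub_const 1).congr_deriv ?_
    ring
  have hBT : ∀ x ∈ Icc 0 T, (1 + A) * Real.exp ((K + 1) * x) - 1 ≤ Bd := by
    intro x hx
    refine le_trans ?_ hBd
    have : Real.exp ((K + 1) * x) ≤ Real.exp ((K + 1) * T) :=
      Real.exp_le_exp.2 (mul_le_mul_of_nonneg_left hx.2 (by linarith))
    nlinarith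
  have h1 := image_le_of_deriv_right_lt_deriv_boundary (f := Ef) (f' := D) (a := 0) (b := T)
    (fun x hx => (hE x hx).continuousWithinAt)
    (fun x hx => (hE x ⟨hx.1, hx.2.le⟩).mono_of_mem_nhdsWithin
      (Icc_mem_nhdsGE_of_mem ⟨hx.1, hx.2⟩))
    (B := fun x => (1 + A) * Real.exp ((K + 1) * x) - 1)
    (B' := fun x => (K + 1) * ((1 + A) * Real.exp ((K + 1) * x)))
    (by simpa using h0) hB
    (by
      intro x hx hx'
      have hxI : x ∈ Icc 0 T := ⟨hx.1, hx.2.le⟩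
      have h2 := hD x hxI (by rw [hx']; exact hBT x hxI)
      rw [hx'] at h2
      have h3 : 0 < (1 + A) * Real.exp ((K + 1) * x) := by positivity
      nlinarith) ht
  exact h1.trans (hBT t ht)

/-- One step of the bootstrap: a bound of the energy of order `s` gives one of order `s'`
when `n + s'/2 + 2 ≤ s`. -/
lemma P5c_step {P : ℝ} (hP : 0 < P) (n s s' : ℕ) (hs : n + (s' / 2 + 2) ≤ s) (B : ℝ) :
    ∃ K : ℝ, 0 ≤ K ∧ ∀ v : E n → ℝ, ContDiff ℝ ∞ v → Per P v → En P s v ≤ B →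
      ∑ k ∈ Finset.range (s' + 1), ∑ a : Fin k → Fin n,
        Iper P (fun x => Dw (List.ofFn a) v x * Dw (List.ofFn a) (Fop v) x)
          ≤ K * (1 + En P s' v) := by
  obtain ⟨C, hC0, hC⟩ := P5c_sup hP n
  obtain ⟨K, hK0, hK⟩ := energy_static hP n s' (Real.sqrt (C * B))
  refine ⟨K, hK0, fun v hv hvp hB => hK v hv hvp fun w hw x => ?_⟩
  have h1 := hC v hv hvp w x
  have h2 : En P (n + w.length) v ≤ B :=
    (P5c_En_mono (by omega) v).trans hB
  have h3 : (Dw w v x) ^ 2 ≤ C * B := h1.trans (mul_le_mul_of_nonneg_left h2 hC0)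
  exact Real.abs_le_sqrt h3

theorem approx_bounds {P : ℝ} (hP : 0 < P) (n : ℕ) (M : ℝ) : ∃ τ : ℝ, 0 < τ ∧
    ∀ f : E n → ℝ, ContDiff ℝ ∞ f → Per P f →
      (∀ w : List (Fin n), w.length ≤ 2 * n + 10 → ∀ x, |Dw w f x| ≤ M) →
      ∀ w : List (Fin n), ∃ C : ℝ, ∀ ε : ℝ, 0 < ε → ε ≤ 1 → ∀ (m : Mollifier n ε)
        (U : ℝ → E n → ℝ), IsApprox m P τ f U → ∀ t ∈ Icc 0 τ, ∀ x, |Dw w (U t) x| ≤ C := by
  obtain ⟨A, hA0, hA⟩ := P5c_En_init hP n (2 * n + 10) M
  obtain ⟨K, hK0, hK⟩ := P5c_step hP n (2 * n + 10) (2 * n + 10) (by omega) (2 * A + 1)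
  set τ : ℝ := Real.log 2 / (2 * K + 1) with hτ
  have hlog : 0 < Real.log 2 := Real.log_pos (by norm_num)
  have hτ0 : 0 < τ := by positivity
  refine ⟨τ, hτ0, fun f hf hfp hfM w => ?_⟩
  -- energy bounds
  have hE0 : ∀ ε : ℝ, 0 < ε → ε ≤ 1 → ∀ (m : Mollifier n ε) (U : ℝ → E n → ℝ),
      IsApprox m P τ f U → ∀ t ∈ Icc 0 τ, En P (2 * n + 10) (U t) ≤ 2 * A + 1 := by
    intro ε _ _ m U hU
    refine P5c_gron (A := A) (K := 2 * K) (by positivity) hA0
      (P5c_En_deriv m hP hU (2 * n + 10)) ?_ ?_ ?_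
    · rw [hU.init]; exact hA f hfM
    · have : (2 * K + 1) * τ = Real.log 2 := by rw [hτ]; field_simp
      rw [this, Real.exp_log (by norm_num)]
      linarith
    · intro t ht hb
      have hu := hU.smooth t ht
      have hup := hU.per t ht
      have h1 := P5c_En_J m hP hu hup (2 * n + 10)
      have h2 := hK (m.J (U t)) (J_contDiff m hu.continuous) (J_per m hup) (h1.trans hb)
      have h3 : K * (1 + En P (2 * n + 10) (m.J (U t))) ≤ K * (1 + En P (2 * n + 10) (U t)) :=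
        mul_le_mul_of_nonneg_left (by linarith) hK0
      linarith
  have hE : ∀ j : ℕ, ∃ C : ℝ, ∀ ε : ℝ, 0 < ε → ε ≤ 1 → ∀ (m : Mollifier n ε)
      (U : ℝ → E n → ℝ), IsApprox m P τ f U → ∀ t ∈ Icc 0 τ,
        En P (2 * n + 10 + j) (U t) ≤ C := by
    intro j
    induction j with
    | zero => exact ⟨2 * A + 1, hE0⟩
    | succ j ih =>
      obtain ⟨B, hB⟩ := ih
      obtain ⟨K', hK'0, hK'⟩ := P5c_step hP n (2 * n + 10 + j) (2 * n + 10 + (j + 1))
        (by omega) B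
      set A' : ℝ := En P (2 * n + 10 + (j + 1)) f with hA'
      refine ⟨(1 + A') * Real.exp ((2 * K' + 1) * τ) - 1, ?_⟩
      intro ε hε hε1 m U hU
      refine P5c_gron (A := A') (K := 2 * K') (by positivity) (P5c_En_nonneg _ _ _)
        (P5c_En_deriv m hP hU (2 * n + 10 + (j + 1))) ?_ le_rfl ?_
      · rw [hU.init]
      · intro t ht _
        have hu := hU.smooth t ht
        have hup := hU.per t ht
        have h1 := P5c_En_J m hP hu hup (2 * n + 10 + j)
        have h1' := P5c_En_J m hP hu hup (2 * n + 10 + (j + 1))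
        have h2 := hK' (m.J (U t)) (J_contDiff m hu.continuous) (J_per m hup)
          (h1.trans (hB ε hε hε1 m U hU t ht))
        have h3 : K' * (1 + En P (2 * n + 10 + (j + 1)) (m.J (U t)))
            ≤ K' * (1 + En P (2 * n + 10 + (j + 1)) (U t)) :=
          mul_le_mul_of_nonneg_left (by linarith) hK'0
        linarith
  obtain ⟨C, hC0, hC⟩ := P5c_sup hP n
  obtain ⟨B, hB⟩ := hE w.length
  refine ⟨Real.sqrt (C * B), fun ε hε hε1 m U hU t ht x => ?_⟩
  have h1 := hC (U t) (hU.smooth t ht) (hU.per t ht) w x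
  have h2 : En P (n + w.length) (U t) ≤ B :=
    (P5c_En_mono (by omega) _).trans (hB ε hε hε1 m U hU t ht)
  exact Real.abs_le_sqrt (h1.trans (mul_le_mul_of_nonneg_left h2 hC0))

end Pool.Agent.GR

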